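import Pool.Agent.Y234.GS.StmB

/-! Project GS (helper234): task `S_GAU`, the Gauss valuation ring. -/

set_option autoImplicit false

namespace Pool.Agent.Y394.GS

open Pool.Agent.Y234.GS MvPolynomial

section
variable {O k1 L1 : Type} [CommRing O] [IsDomain O] [IsDiscreteValuationRing O] [Field k1]
  [Field L1] [Algebra O k1] [IsFractionRing O k1] [Algebra k1 L1] [Algebra O L1]
  [IsScalarTower O k1 L1] {t : O} {D : ℕ} {ψ : Fin D → L1}

omit [IsDomain O] [IsDiscreteValuationRing O] in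
theorem nd_iff (t : O) (F : MvPolynomial (Fin D) O) : (∃ b, ¬ t ∣ coeff b F) ↔ ¬ C t ∣ F := by
  rw [C_dvd_iff_dvd_coeff]
  push Not
  rfl

theorem prime_Ct (ht : Irreducible t) : Prime (C t : MvPolynomial (Fin D) O) :=
  (MvPolynomial.prime_C_iff _).2 ht.prime

theorem mem_GD (z : L1) : z ∈ GD t ψ ↔
    ∃ F N : MvPolynomial (Fin D) O, ¬ C t ∣ F ∧ z * aeval ψ F = aeval ψ N := by
  unfold GD
  simp only [nd_iff]
  rfl

theorem mem_GDt (z : L1) : z ∈ GDt t ψ ↔
    ∃ F N : MvPolynomial (Fin D) O, ¬ C t ∣ F ∧ z * aeval ψ F = aeval ψ (C t * N) := by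
  unfold GDt
  simp only [nd_iff]
  rfl

/-- the Gauss valuation ring -/
def dv (ht : Irreducible t) (ψ : Fin D → L1) : Subalgebra O L1 where
  carrier := GD t ψ
  mul_mem' := by
    intro a b ha hb
    rw [mem_GD] at ha hb ⊢
    obtain ⟨F1, N1, h1, h2⟩ := ha
    obtain ⟨F2, N2, h3, h4⟩ := hb
    refine ⟨F1 * F2, N1 * N2, fun h => ((prime_Ct ht).dvd_or_dvd h).elim h1 h3, ?_⟩
    rw [map_mul, map_mul, ← h2, ← h4]
    ring
  add_mem' := by
    intro a b ha hb
    rw [mem_GD] at ha hb ⊢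
    obtain ⟨F1, N1, h1, h2⟩ := ha
    obtain ⟨F2, N2, h3, h4⟩ := hb
    refine ⟨F1 * F2, N1 * F2 + N2 * F1, fun h => ((prime_Ct ht).dvd_or_dvd h).elim h1 h3, ?_⟩
    rw [map_mul, map_add, map_mul, map_mul, ← h2, ← h4]
    ring
  algebraMap_mem' := by
    intro o
    rw [mem_GD]
    refine ⟨1, C o, fun h => (prime_Ct ht).not_isUnit (isUnit_of_dvd_one h), ?_⟩
    rw [map_one, mul_one, aeval_C]

theorem mem_dv (ht : Irreducible t) (z : L1) : z ∈ dv ht ψ ↔ z ∈ GD t ψ := Iff.rfl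

theorem ev_mem (ht : Irreducible t) (N : MvPolynomial (Fin D) O) : aeval ψ N ∈ dv ht ψ := by
  rw [mem_dv, mem_GD]
  exact ⟨1, N, fun h => (prime_Ct ht).not_isUnit (isUnit_of_dvd_one h), by rw [map_one, mul_one]⟩

omit [IsDomain O] [IsDiscreteValuationRing O] in
theorem ev_inj (hψ : AlgebraicIndependent k1 ψ) :
    Function.Injective (aeval ψ : MvPolynomial (Fin D) O →ₐ[O] L1) :=
  hψ.restrictScalars (IsFractionRing.injective O k1)

theorem ev_ne (hψ : AlgebraicIndependent k1 ψ) {F : MvPolynomial (Fin D) O} (hF : ¬ C t ∣ F) :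
    aeval ψ F ≠ 0 := by
  intro h
  apply hF
  rw [(map_eq_zero_iff _ (ev_inj hψ)).1 h]
  exact dvd_zero _

theorem clear_mv (F : MvPolynomial (Fin D) k1) : ∃ (a : O) (F0 : MvPolynomial (Fin D) O),
    a ≠ 0 ∧ map (algebraMap O k1) F0 = C (algebraMap O k1 a) * F := by
  induction F using MvPolynomial.induction_on with
  | C c =>
    obtain ⟨x, y, hy, rfl⟩ := IsFractionRing.div_surjective (A := O) c
    have hy0 : algebraMap O k1 y ≠ 0 := by
      rw [Ne, map_eq_zero_iff _ (IsFractionRing.injective O k1)]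
      exact nonZeroDivisors.ne_zero hy
    refine ⟨y, C x, nonZeroDivisors.ne_zero hy, ?_⟩
    rw [map_C, ← C_mul, mul_div_cancel₀ _ hy0]
  | add P Q hP hQ =>
    obtain ⟨a, P0, ha, h1⟩ := hP
    obtain ⟨b, Q0, hb, h2⟩ := hQ
    refine ⟨a * b, C b * P0 + C a * Q0, mul_ne_zero ha hb, ?_⟩
    rw [map_add, map_mul, map_mul, map_C, map_C, h1, h2, map_mul, C_mul]
    ring
  | mul_X P i hP =>
    obtain ⟨a, P0, ha, h1⟩ := hP
    refine ⟨a, P0 * X i, ha, ?_⟩
    rw [map_mul, h1, map_X, mul_assoc]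

theorem first (ht : Irreducible t) (hψ : AlgebraicIndependent k1 ψ) (F : MvPolynomial (Fin D) k1)
    (hF : aeval ψ F ∈ GDt t ψ) (b : Fin D →₀ ℕ) : ∃ o : O, coeff b F = algebraMap O k1 (t * o) := by
  obtain ⟨F1, N, h1, h2⟩ := (mem_GDt _).1 hF
  obtain ⟨a, F0, ha, h3⟩ := clear_mv (O := O) F
  have h4 : aeval ψ F0 = algebraMap O L1 a * aeval ψ F := by
    have := aeval_map_algebraMap k1 ψ F0
    rw [← this, h3, map_mul, aeval_C, ← IsScalarTower.algebraMap_apply]
  have h5 : F0 * F1 = C (a * t) * N := by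
    apply ev_inj hψ
    rw [map_mul, h4, map_mul, aeval_C, map_mul, mul_assoc, h2, map_mul, aeval_C]
    ring
  obtain ⟨n, u, hu⟩ := IsDiscreteValuationRing.eq_unit_mul_pow_irreducible
    (mul_ne_zero ha ht.ne_zero) ht
  have h6 : (C t : MvPolynomial (Fin D) O) ^ n ∣ F0 := by
    refine (prime_Ct ht).pow_dvd_of_dvd_mul_right n h1 ?_
    rw [h5, hu]
    exact ⟨C (u : O) * N, by rw [C_mul, C_pow]; ring⟩
  have h7 : C (a * t) ∣ F0 := by
    rw [hu, C_mul, C_pow]
    have hunit : IsUnit (C (u : O) : MvPolynomial (Fin D) O) := (u.isUnit).map C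
    exact (hunit.mul_left_dvd).2 h6
  obtain ⟨o, ho⟩ := (C_dvd_iff_dvd_coeff _ _).1 h7 b
  refine ⟨o, ?_⟩
  have h8 : algebraMap O k1 (coeff b F0) = algebraMap O k1 a * coeff b F := by
    rw [← coeff_map, h3, coeff_C_mul]
  have ha0 : algebraMap O k1 a ≠ 0 := by
    rwa [Ne, map_eq_zero_iff _ (IsFractionRing.injective O k1)]
  apply mul_left_cancel₀ ha0
  rw [← h8, ho, ← map_mul, mul_assoc]

/-- nonzero elements are a power of `t` times a unit -/
theorem factor (ht : Irreducible t) (hψ : AlgebraicIndependent k1 ψ) (z : dv ht ψ) (hz : z ≠ 0) :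
    ∃ (n : ℕ) (u : (dv ht ψ)ˣ), algebraMap O (dv ht ψ) t ^ n * u = z := by
  obtain ⟨z, hzm⟩ := z
  obtain ⟨F, N, hF, hN⟩ := (mem_GD _).1 hzm
  have hz0 : z ≠ 0 := fun h => hz (Subtype.ext h)
  have hF0 := ev_ne hψ hF
  have hN0 : N ≠ 0 := by
    rintro rfl
    rw [map_zero] at hN
    exact (mul_ne_zero hz0 hF0) hN
  obtain ⟨n, N', hN', hNN⟩ := WfDvdMonoid.max_power_factor hN0 (prime_Ct ht).irreducible
  have hN'0 := ev_ne hψ hN'
  have hu : aeval ψ N' / aeval ψ F ∈ dv ht ψ := by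
    rw [mem_dv, mem_GD]
    exact ⟨F, N', hF, div_mul_cancel₀ _ hF0⟩
  have hv : aeval ψ F / aeval ψ N' ∈ dv ht ψ := by
    rw [mem_dv, mem_GD]
    exact ⟨N', F, hN', div_mul_cancel₀ _ hN'0⟩
  refine ⟨n, ⟨⟨_, hu⟩, ⟨_, hv⟩, ?_, ?_⟩, ?_⟩
  · apply Subtype.ext
    change aeval ψ N' / aeval ψ F * (aeval ψ F / aeval ψ N') = 1
    field_simp
  · apply Subtype.ext
    change aeval ψ F / aeval ψ N' * (aeval ψ N' / aeval ψ F) = 1
    field_simp
  · apply Subtype.ext
    change algebraMap O L1 t ^ n * (aeval ψ N' / aeval ψ F) = z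
    rw [hNN, map_mul, map_pow, aeval_C] at hN
    rw [← mul_div_assoc, ← hN, mul_div_cancel_right₀ _ hF0]

theorem t_ne (ht : Irreducible t) (_hψ : AlgebraicIndependent k1 ψ) :
    algebraMap O (dv ht ψ) t ≠ 0 := by
  intro h
  have h1 : algebraMap O L1 t = 0 := congrArg Subtype.val h
  rw [IsScalarTower.algebraMap_apply O k1 L1, map_eq_zero] at h1
  exact ht.ne_zero ((map_eq_zero_iff _ (IsFractionRing.injective O k1)).1 h1)

theorem t_not_unit (ht : Irreducible t) (hψ : AlgebraicIndependent k1 ψ) :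
    ¬ IsUnit (algebraMap O (dv ht ψ) t) := by
  intro h
  obtain ⟨w, hw⟩ := h.exists_right_inv
  have hw1 : algebraMap O L1 t * (w : L1) = 1 := congrArg Subtype.val hw
  obtain ⟨F, N, hF, hN⟩ := (mem_GD _).1 w.2
  apply hF
  refine ⟨N, ev_inj hψ ?_⟩
  rw [map_mul, aeval_C, ← hN, ← mul_assoc, hw1, one_mul]

theorem t_irr (ht : Irreducible t) (hψ : AlgebraicIndependent k1 ψ) :
    Irreducible (algebraMap O (dv ht ψ) t) := by
  refine ⟨t_not_unit ht hψ, ?_⟩
  intro a b hab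
  have ht0 := t_ne ht hψ
  have ha0 : a ≠ 0 := by
    rintro rfl
    rw [zero_mul] at hab
    exact ht0 hab
  have hb0 : b ≠ 0 := by
    rintro rfl
    rw [mul_zero] at hab
    exact ht0 hab
  obtain ⟨i, u, hu⟩ := factor ht hψ a ha0
  obtain ⟨j, v, hv⟩ := factor ht hψ b hb0
  rcases Nat.eq_zero_or_pos i with hi | hi
  · left
    rw [← hu, hi, pow_zero, one_mul]
    exact u.isUnit
  rcases Nat.eq_zero_or_pos j with hj | hj
  · right
    rw [← hv, hj, pow_zero, one_mul]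
    exact v.isUnit
  exfalso
  apply t_not_unit ht hψ
  obtain ⟨i', rfl⟩ : ∃ i', i = i' + 1 := ⟨i - 1, by omega⟩
  obtain ⟨j', rfl⟩ : ∃ j', j = j' + 1 := ⟨j - 1, by omega⟩
  refine IsUnit.of_mul_eq_one (algebraMap O (dv ht ψ) t ^ (i' + j') * u * v) ?_
  apply mul_left_cancel₀ ht0
  rw [mul_one]
  conv_rhs => rw [hab, ← hu, ← hv]
  ring

theorem isDVR (ht : Irreducible t) (hψ : AlgebraicIndependent k1 ψ) :
    IsDiscreteValuationRing (dv ht ψ) := by
  apply IsDiscreteValuationRing.ofHasUnitMulPowIrreducibleFactorization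
  refine ⟨algebraMap O (dv ht ψ) t, t_irr ht hψ, fun {x} hx => ?_⟩
  obtain ⟨n, u, hu⟩ := factor ht hψ x hx
  exact ⟨n, u, hu⟩

theorem mem_adj {z : L1} (hψ : AlgebraicIndependent k1 ψ) (hz : z ∈ GD t ψ) :
    z ∈ IntermediateField.adjoin k1 (Set.range ψ) := by
  have h1 : ∀ F : MvPolynomial (Fin D) O,
      aeval ψ F ∈ IntermediateField.adjoin k1 (Set.range ψ) := by
    intro F
    rw [← aeval_map_algebraMap k1 ψ F]
    rw [IntermediateField.mem_adjoin_range_iff]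
    exact ⟨map (algebraMap O k1) F, 1, by rw [map_one, div_one]⟩
  obtain ⟨F, N, hF, hN⟩ := (mem_GD _).1 hz
  have hF0 := ev_ne hψ hF
  rw [← mul_div_cancel_right₀ z hF0, hN]
  exact div_mem (h1 N) (h1 F)

theorem surj (ht : Irreducible t) {z : L1}
    (hz : z ∈ IntermediateField.adjoin k1 (Set.range ψ)) :
    ∃ x y : dv ht ψ, z = (x : L1) / (y : L1) := by
  obtain ⟨A, B, rfl⟩ := (IntermediateField.mem_adjoin_range_iff k1 ψ z).1 hz
  obtain ⟨a, A0, ha, hA⟩ := clear_mv (O := O) A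
  obtain ⟨b, B0, hb, hB⟩ := clear_mv (O := O) B
  have hinj : ∀ c : O, c ≠ 0 → algebraMap O L1 c ≠ 0 := by
    intro c hc
    rw [IsScalarTower.algebraMap_apply O k1 L1, Ne, map_eq_zero,
      map_eq_zero_iff _ (IsFractionRing.injective O k1)]
    exact hc
  have h4 : ∀ (c : O) (F : MvPolynomial (Fin D) k1) (F0 : MvPolynomial (Fin D) O),
      map (algebraMap O k1) F0 = C (algebraMap O k1 c) * F →
      aeval ψ F0 = algebraMap O L1 c * aeval ψ F := by
    intro c F F0 h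
    rw [← aeval_map_algebraMap k1 ψ F0, h, map_mul, aeval_C, ← IsScalarTower.algebraMap_apply]
  refine ⟨⟨aeval ψ (C b * A0), ev_mem ht _⟩, ⟨aeval ψ (C a * B0), ev_mem ht _⟩, ?_⟩
  change _ = aeval ψ (C b * A0) / aeval ψ (C a * B0)
  rw [map_mul, map_mul, aeval_C, aeval_C, h4 a A A0 hA, h4 b B B0 hB]
  have h5 := hinj a ha
  have h6 := hinj b hb
  by_cases h7 : aeval ψ B = 0
  · rw [h7]
    simp
  · field_simp

end

theorem gau : S_GAU := by
  intro k O k1 L1 _ _ _ _ _ _ _ _ _ _ _ _ _ _ t D ψ ht hψ hfd hsep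
  refine ⟨fun F hF b => first ht hψ F hF b, ?_⟩
  let inc : dv ht ψ →+* IntermediateField.adjoin k1 (Set.range ψ) :=
    { toFun := fun z => ⟨z.1, mem_adj hψ z.2⟩
      map_one' := rfl
      map_mul' := fun _ _ => rfl
      map_zero' := rfl
      map_add' := fun _ _ => rfl }
  let alg : Algebra (dv ht ψ) (IntermediateField.adjoin k1 (Set.range ψ)) := inc.toAlgebra
  have hdvr := isDVR (ψ := ψ) ht hψ
  have hfs : FaithfulSMul (dv ht ψ) (IntermediateField.adjoin k1 (Set.range ψ)) := by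
    rw [faithfulSMul_iff_algebraMap_injective]
    intro x y h
    exact Subtype.ext (congrArg (fun q : IntermediateField.adjoin k1 (Set.range ψ) => (q : L1)) h)
  have hfrac : IsFractionRing (dv ht ψ) (IntermediateField.adjoin k1 (Set.range ψ)) := by
    refine IsFractionRing.of_field _ _ fun z => ?_
    obtain ⟨x, y, hxy⟩ := surj ht z.2
    exact ⟨x, y, Subtype.ext hxy⟩
  have hst : IsScalarTower (dv ht ψ) (IntermediateField.adjoin k1 (Set.range ψ)) L1 :=
    IsScalarTower.of_algebraMap_eq fun _ => rfl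
  have hst2 : IsScalarTower k (dv ht ψ) L1 := IsScalarTower.of_algebraMap_eq fun _ => rfl
  refine ⟨dv ht ψ, IntermediateField.adjoin k1 (Set.range ψ), inferInstance, inferInstance, hdvr,
    inferInstance, inferInstance, alg, hfrac, inferInstance, inferInstance, hst, hst2, hfd, hsep,
    algebraMap O (dv ht ψ) t, t_irr ht hψ, rfl, ?_, ?_, ?_⟩
  · intro z
    constructor
    · rintro ⟨z', rfl⟩
      exact z'.2
    · intro hz
      exact ⟨⟨z, hz⟩, rfl⟩
  · intro z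
    have hval : ∀ z' : dv ht ψ, algebraMap (dv ht ψ) L1 (algebraMap O (dv ht ψ) t * z') =
        algebraMap O L1 t * (z' : L1) := fun _ => rfl
    rw [mem_GDt]
    constructor
    · rintro ⟨z', rfl⟩
      obtain ⟨F, N, hF, hN⟩ := (mem_GD _).1 z'.2
      refine ⟨F, N, hF, ?_⟩
      rw [hval, mul_assoc, hN, map_mul, aeval_C]
    · rintro ⟨F, N, hF, hN⟩
      have hF0 := ev_ne hψ hF
      refine ⟨⟨aeval ψ N / aeval ψ F, (mem_GD _).2 ⟨F, N, hF, div_mul_cancel₀ _ hF0⟩⟩, ?_⟩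
      rw [hval]
      change algebraMap O L1 t * (aeval ψ N / aeval ψ F) = z
      rw [map_mul, aeval_C] at hN
      rw [← mul_div_assoc, ← hN, mul_div_cancel_right₀ _ hF0]
  · intro z
    constructor
    · rintro ⟨q, rfl⟩
      exact q.2
    · intro hz
      exact ⟨⟨z, hz⟩, rfl⟩

end Pool.Agent.Y394.GS
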