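import Pool.Agent.Y234.GS.StmA

/-! Project GS (helper234): tasks `S_POL` and `S_POLT`. -/

set_option autoImplicit false

namespace Pool.Agent.Y394.GS

open Pool.Agent.Y234.GS

section homotopy
variable {ι M : Type} [LinearOrder ι] [AddCommGroup M]

/-- the sign of `i` relative to `S` -/
def sgn (S : Finset ι) (i : ι) : ℤ := (-1) ^ (S.filter (fun u => u < i)).card

theorem dd_eq (c : Finset ι → M) (S : Finset ι) : dd c S = ∑ i ∈ S, sgn S i • c (S.erase i) := rfl

/-- contraction with `i₀` -/
def contr (i₀ : ι) (g : Finset ι → M) (S : Finset ι) : M :=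
  if i₀ ∈ S then 0 else sgn S i₀ • g (insert i₀ S)

theorem sgn_mul_self (S : Finset ι) (i : ι) : sgn S i * sgn S i = 1 := by
  unfold sgn
  rw [← mul_pow]
  norm_num

theorem sgn_erase_self (S : Finset ι) (i : ι) : sgn (S.erase i) i = sgn S i := by
  unfold sgn
  congr 2
  ext u
  simp only [Finset.mem_filter, Finset.mem_erase]
  constructor
  · rintro ⟨⟨_, h⟩, h2⟩
    exact ⟨h, h2⟩
  · rintro ⟨h, h2⟩
    exact ⟨⟨h2.ne, h⟩, h2⟩

theorem sgn_insert_self (S : Finset ι) (i : ι) : sgn (insert i S) i = sgn S i := by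
  rw [← sgn_erase_self (insert i S) i, Finset.erase_insert_eq_erase, sgn_erase_self]

theorem sgn_cross {S : Finset ι} {i i₀ : ι} (hi : i ∈ S) (h0 : i₀ ∉ S) :
    sgn S i * sgn (S.erase i) i₀ = -(sgn S i₀ * sgn (insert i₀ S) i) := by
  have hne : i ≠ i₀ := fun h => h0 (h ▸ hi)
  rcases lt_or_gt_of_ne hne with h | h
  · have h1 : (S.erase i).filter (fun u => u < i₀) = (S.filter (fun u => u < i₀)).erase i := by
      rw [Finset.filter_erase]
    have h2 : (insert i₀ S).filter (fun u => u < i) = S.filter (fun u => u < i) := by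
      rw [Finset.filter_insert, if_neg (not_lt.2 h.le)]
    have h3 : i ∈ S.filter (fun u => u < i₀) := by simp [hi, h]
    have h4 := Finset.card_erase_add_one h3
    unfold sgn
    rw [h1, h2, ← h4, pow_succ]
    ring
  · have h1 : (S.erase i).filter (fun u => u < i₀) = S.filter (fun u => u < i₀) := by
      rw [Finset.filter_erase, Finset.erase_eq_of_notMem]
      simp [h.le]
    have h2 : (insert i₀ S).filter (fun u => u < i) = insert i₀ (S.filter (fun u => u < i)) := by
      rw [Finset.filter_insert, if_pos h]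
    have h3 : i₀ ∉ S.filter (fun u => u < i) := by simp [h0]
    unfold sgn
    rw [h1, h2, Finset.card_insert_of_notMem h3, pow_succ]
    ring

theorem homotopy (i₀ : ι) (g : Finset ι → M) (S : Finset ι) :
    dd (contr i₀ g) S + contr i₀ (dd g) S = g S := by
  by_cases h0 : i₀ ∈ S
  · have h1 : contr i₀ (dd g) S = 0 := if_pos h0
    rw [h1, add_zero, dd_eq, Finset.sum_eq_single i₀]
    · have h2 : contr i₀ g (S.erase i₀) = sgn (S.erase i₀) i₀ • g (insert i₀ (S.erase i₀)) :=
        if_neg (Finset.notMem_erase i₀ S)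
      rw [h2, sgn_erase_self, Finset.insert_erase h0, smul_smul, sgn_mul_self, one_smul]
    · intro i _ hne
      have h2 : contr i₀ g (S.erase i) = 0 := if_pos (Finset.mem_erase.2 ⟨hne.symm, h0⟩)
      rw [h2, smul_zero]
    · intro h
      exact absurd h0 h
  · have h1 : contr i₀ (dd g) S = sgn S i₀ • dd g (insert i₀ S) := if_neg h0
    rw [h1, dd_eq g, Finset.sum_insert h0, sgn_insert_self, Finset.erase_insert h0, smul_add,
      smul_smul, sgn_mul_self, one_smul, add_left_comm, dd_eq, Finset.smul_sum,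
      ← Finset.sum_add_distrib]
    rw [Finset.sum_eq_zero, add_zero]
    intro i hi
    have hne : i ≠ i₀ := fun h => h0 (h ▸ hi)
    have h2 : contr i₀ g (S.erase i) = sgn (S.erase i) i₀ • g (insert i₀ (S.erase i)) :=
      if_neg fun h => h0 (Finset.mem_of_mem_erase h)
    rw [h2, smul_smul, smul_smul, sgn_cross hi h0, Finset.erase_insert_of_ne hne.symm, neg_smul,
      neg_add_cancel]

end homotopy

section mono
variable {K L : Type} [Field K] [Field L] [Algebra K L] {D : ℕ} {θ : Fin D → L}

theorem mon_mem (c : Fin D → ℕ) : mon θ c ∈ VV K θ ^ deg c := by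
  unfold mon deg
  have h : ∀ s : Finset (Fin D), ∏ i ∈ s, θ i ^ c i ∈ VV K θ ^ (∑ i ∈ s, c i) := by
    intro s
    induction s using Finset.induction_on with
    | empty => simp [Submodule.one_le.1 le_rfl]
    | insert a s ha ih =>
      rw [Finset.prod_insert ha, Finset.sum_insert ha, pow_add]
      have h1 : θ a ∈ VV K θ := Submodule.subset_span (Set.mem_range_self a)
      exact Submodule.mul_mem_mul (Submodule.pow_mem_pow _ h1 _) ih
  exact h _

theorem pow_le_span (e : ℕ) :
    VV K θ ^ e ≤ Submodule.span K {a : L | ∃ c : Fin D → ℕ, deg c = e ∧ a = mon θ c} := by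
  induction e with
  | zero =>
    rw [pow_zero, Submodule.one_eq_span]
    refine Submodule.span_mono ?_
    rintro _ rfl
    exact ⟨0, by simp [deg], by simp [mon]⟩
  | succ e ih =>
    rw [pow_succ]
    refine (mul_le_mul' ih le_rfl).trans ?_
    rw [VV, Submodule.span_mul_span]
    refine Submodule.span_mono ?_
    rintro _ ⟨_, ⟨c, hc, rfl⟩, _, ⟨i, rfl⟩, rfl⟩
    refine ⟨c + Pi.single i 1, ?_, ?_⟩
    · simp only [deg, Pi.add_apply, Finset.sum_add_distrib]
      rw [Finset.sum_pi_single']
      simp only [Finset.mem_univ, if_true]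
      exact congrArg (· + 1) hc
    · simp only [mon, Pi.add_apply, pow_add, Finset.prod_mul_distrib]
      congr 1
      rw [Finset.prod_eq_single i]
      · simp
      · intro k _ hk
        rw [Pi.single_eq_of_ne hk, pow_zero]
      · simp

/-- exponents of degree `m` which are nonnegative outside `S` -/
def Gs (D : ℕ) (m : ℤ) (S : Finset (Fin D)) : Set (Fin D → ℤ) :=
  {b | degz b = m ∧ ∀ i, i ∉ S → 0 ≤ b i}

theorem prod_pow_eq (S : Finset (Fin D)) (N : ℕ) :
    (∏ i ∈ S, θ i) ^ N = ∏ i, θ i ^ (if i ∈ S then (N : ℤ) else 0) := by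
  rw [← Finset.prod_pow]
  have h : ∀ i, θ i ^ (if i ∈ S then (N : ℤ) else 0) = if i ∈ S then θ i ^ N else 1 := by
    intro i
    split_ifs
    · exact zpow_natCast _ _
    · exact zpow_zero _
  rw [Finset.prod_congr rfl fun i _ => h i, Finset.prod_ite_mem, Finset.univ_inter]

theorem prod_mul_monz (h0 : ∀ i, θ i ≠ 0) (S : Finset (Fin D)) (N : ℕ) (b : Fin D → ℤ) :
    (∏ i ∈ S, θ i) ^ N * monz θ b = monz θ (fun i => b i + if i ∈ S then (N : ℤ) else 0) := by
  rw [prod_pow_eq, monz, monz, ← Finset.prod_mul_distrib]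
  refine Finset.prod_congr rfl fun i _ => ?_
  rw [← zpow_add₀ (h0 i), add_comm]

theorem mon_eq (c : Fin D → ℕ) : mon θ c = monz θ (fun i => (c i : ℤ)) := by
  unfold mon monz
  refine Finset.prod_congr rfl fun i _ => (zpow_natCast _ _).symm

theorem degz_add (S : Finset (Fin D)) (N : ℤ) (b : Fin D → ℤ) :
    degz (fun i => b i + if i ∈ S then N else 0) = degz b + N * S.card := by
  unfold degz
  rw [Finset.sum_add_distrib, Finset.sum_ite_mem, Finset.univ_inter, Finset.sum_const,
    nsmul_eq_mul, mul_comm]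

/-- raising the power of the denominator -/
theorem raise (S : Finset (Fin D)) {N e : ℕ} {a : L}
    (h : (∏ i ∈ S, θ i) ^ N * a ∈ VV K θ ^ e) (k : ℕ) :
    (∏ i ∈ S, θ i) ^ (N + k) * a ∈ VV K θ ^ (e + k * S.card) := by
  have h1 : (∏ i ∈ S, θ i) ∈ VV K θ ^ S.card := by
    have h2 := mon_mem (K := K) (θ := θ) (fun i => if i ∈ S then 1 else 0)
    have h3 : deg (fun i => if i ∈ S then 1 else 0) = S.card := by
      unfold deg
      simp
    have h4 : mon θ (fun i => if i ∈ S then 1 else 0) = ∏ i ∈ S, θ i := by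
      unfold mon
      have : ∀ i, θ i ^ (if i ∈ S then 1 else 0) = if i ∈ S then θ i else 1 := by
        intro i
        split_ifs <;> simp
      rw [Finset.prod_congr rfl fun i _ => this i, Finset.prod_ite_mem, Finset.univ_inter]
    rwa [h3, h4] at h2
  have h2 := Submodule.pow_mem_pow _ h1 k
  rw [← pow_mul] at h2
  have h3 := Submodule.mul_mem_mul h h2
  rw [← pow_add, mul_comm S.card k] at h3
  have h4 : (∏ i ∈ S, θ i) ^ (N + k) * a = (∏ i ∈ S, θ i) ^ N * a * (∏ i ∈ S, θ i) ^ k := by
    ring
  rw [h4]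
  exact h3

theorem sec_iff (h0 : ∀ i, θ i ≠ 0) (m : ℤ) {S : Finset (Fin D)} (hS : S.Nonempty) (a : L) :
    a ∈ Sec (VV K θ) θ m S ↔ a ∈ Submodule.span K (monz θ '' Gs D m S) := by
  have hcard : 0 < S.card := hS.card_pos
  constructor
  · rintro ⟨N, e, he, h⟩
    have hP : (∏ i ∈ S, θ i) ^ N ≠ 0 := pow_ne_zero _ (Finset.prod_ne_zero_iff.2 fun i _ => h0 i)
    have key : ∀ z ∈ Submodule.span K {a : L | ∃ c : Fin D → ℕ, deg c = e ∧ a = mon θ c},
        ((∏ i ∈ S, θ i) ^ N)⁻¹ * z ∈ Submodule.span K (monz θ '' Gs D m S) := by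
      intro z hz
      induction hz using Submodule.span_induction with
      | mem x hx =>
        obtain ⟨c, hc, rfl⟩ := hx
        refine Submodule.subset_span ⟨fun i => (c i : ℤ) + if i ∈ S then -(N : ℤ) else 0, ⟨?_, ?_⟩,
          ?_⟩
        · rw [degz_add]
          have : degz (fun i => (c i : ℤ)) = e := by
            unfold degz
            rw [← hc, deg, Nat.cast_sum]
          rw [this]
          linarith
        · intro i hi
          simp only [if_neg hi, add_zero]
          exact Nat.cast_nonneg _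
        · rw [eq_inv_mul_iff_mul_eq₀ hP, prod_mul_monz h0, mon_eq]
          congr 1
          funext i
          split_ifs <;> ring
      | zero => rw [mul_zero]; exact zero_mem _
      | add x y _ _ hx hy => rw [mul_add]; exact add_mem hx hy
      | smul r x _ hx => rw [mul_smul_comm]; exact Submodule.smul_mem _ _ hx
    have h1 := key _ (pow_le_span e h)
    rwa [inv_mul_cancel_left₀ hP] at h1
  · intro h
    induction h using Submodule.span_induction with
    | mem x hx =>
      obtain ⟨b, ⟨hb1, hb2⟩, rfl⟩ := hx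
      let N : ℕ := ∑ i, (b i).natAbs
      have hN : ∀ i, (b i).natAbs ≤ N := fun i =>
        Finset.single_le_sum (f := fun i => (b i).natAbs) (fun _ _ => Nat.zero_le _)
          (Finset.mem_univ i)
      let c : Fin D → ℕ := fun i => (b i + if i ∈ S then (N : ℤ) else 0).toNat
      have hc : ∀ i, (c i : ℤ) = b i + if i ∈ S then (N : ℤ) else 0 := by
        intro i
        refine Int.toNat_of_nonneg ?_
        have := hN i
        split_ifs with h
        · omega
        · have := hb2 i h
          omega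
      refine ⟨N, deg c, ?_, ?_⟩
      · rw [← hb1, ← degz_add]
        unfold deg degz
        rw [Nat.cast_sum]
        exact Finset.sum_congr rfl fun i _ => hc i
      · rw [prod_mul_monz h0]
        have h1 : monz θ (fun i => b i + if i ∈ S then (N : ℤ) else 0) = mon θ c := by
          rw [mon_eq]
          congr 1
          funext i
          exact (hc i).symm
        rw [h1]
        exact mon_mem c
    | zero =>
      have hm : 0 ≤ m + (m.natAbs : ℤ) * S.card := by
        have h1 : (1 : ℤ) ≤ S.card := by exact_mod_cast hcard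
        nlinarith [Int.natCast_nonneg m.natAbs, (by omega : -(m.natAbs : ℤ) ≤ m)]
      refine ⟨m.natAbs, (m + (m.natAbs : ℤ) * S.card).toNat, Int.toNat_of_nonneg hm, ?_⟩
      rw [mul_zero]
      exact zero_mem _
    | add x y _ _ hx hy =>
      obtain ⟨N1, e1, he1, h1⟩ := hx
      obtain ⟨N2, e2, he2, h2⟩ := hy
      have h3 := raise S h1 N2
      have h4 := raise S h2 N1
      have h5 : e2 + N1 * S.card = e1 + N2 * S.card := by
        have : (e2 : ℤ) + N1 * S.card = e1 + N2 * S.card := by rw [he1, he2]; ring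
        exact_mod_cast this
      rw [h5, add_comm N2 N1] at h4
      refine ⟨N1 + N2, e1 + N2 * S.card, ?_, ?_⟩
      · push_cast
        rw [he1]
        ring
      · rw [mul_add]
        exact add_mem h3 h4
    | smul r x _ hx =>
      obtain ⟨N1, e1, he1, h1⟩ := hx
      refine ⟨N1, e1, he1, ?_⟩
      rw [mul_smul_comm]
      exact Submodule.smul_mem _ _ h1

/-- Laurent monomials are linearly independent -/
theorem indep (hθ : AlgebraicIndependent K θ) :
    LinearIndependent K (fun b : Fin D → ℤ => monz θ b) := by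
  classical
  have h0 : ∀ i, θ i ≠ 0 := fun i => hθ.ne_zero i
  have hLI : LinearIndependent K
      (fun c : Fin D →₀ ℕ => MvPolynomial.aeval θ (MvPolynomial.basisMonomials (Fin D) K c)) :=
    (MvPolynomial.basisMonomials (Fin D) K).linearIndependent.map'
      (MvPolynomial.aeval θ).toLinearMap (LinearMap.ker_eq_bot.2 hθ)
  rw [linearIndependent_iff']
  intro s g hg b₀ hb₀
  let N : ℕ := ∑ b ∈ s, ∑ i, (b i).natAbs
  have hN : ∀ b ∈ s, ∀ i, (b i).natAbs ≤ N := by
    intro b hb i
    refine le_trans (Finset.single_le_sum (f := fun i => (b i).natAbs) (fun _ _ => Nat.zero_le _)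
      (Finset.mem_univ i)) ?_
    exact Finset.single_le_sum (f := fun b : Fin D → ℤ => ∑ i, (b i).natAbs)
      (fun _ _ => Nat.zero_le _) hb
  let τ : (Fin D → ℤ) → (Fin D →₀ ℕ) := fun b =>
    Finsupp.equivFunOnFinite.symm fun i => (b i + N).toNat
  have hτ : ∀ b ∈ s, ∀ i, ((τ b i : ℕ) : ℤ) = b i + N := by
    intro b hb i
    have := hN b hb i
    exact Int.toNat_of_nonneg (by omega)
  have hinj : Function.Injective fun b : s => τ b.1 := by
    rintro ⟨b, hb⟩ ⟨b', hb'⟩ h
    apply Subtype.ext
    funext i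
    have h1 := hτ b hb i
    have h2 := hτ b' hb' i
    simp only at h
    rw [h] at h1
    simp only
    omega
  have h1 := Fintype.linearIndependent_iff.1 (hLI.comp _ hinj) (fun b => g b.1) ?_ ⟨b₀, hb₀⟩
  · exact h1
  · have h2 : ∀ b ∈ s, (∏ i, θ i) ^ N * monz θ b =
        MvPolynomial.aeval θ (MvPolynomial.basisMonomials (Fin D) K (τ b)) := by
      intro b hb
      rw [MvPolynomial.coe_basisMonomials, MvPolynomial.aeval_monomial, map_one, one_mul,
        Finsupp.prod_fintype _ _ (fun i => pow_zero _), ← Finset.prod_pow, monz,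
        ← Finset.prod_mul_distrib]
      refine Finset.prod_congr rfl fun i _ => ?_
      rw [← zpow_natCast (θ i) (τ b i), hτ b hb i, zpow_add₀ (h0 i), zpow_natCast, mul_comm]
    have h3 : (∏ i, θ i) ^ N * ∑ b ∈ s, g b • monz θ b = 0 := by rw [hg, mul_zero]
    rw [Finset.mul_sum] at h3
    simp only [Function.comp_apply]
    rw [Finset.sum_coe_sort s (fun b => g b • MvPolynomial.aeval θ
      (MvPolynomial.basisMonomials (Fin D) K (τ b)))]
    rw [← h3]
    refine Finset.sum_congr rfl fun b hb => ?_
    rw [mul_smul_comm, h2 b hb]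

theorem dd_sum {B : Type} (s : Finset B) (g : B → Finset (Fin D) → K) (v : B → L)
    (S : Finset (Fin D)) :
    dd (fun T => ∑ b ∈ s, g b T • v b) S = ∑ b ∈ s, dd (g b) S • v b := by
  simp only [dd_eq, Finset.sum_smul, Finset.smul_sum]
  rw [Finset.sum_comm]
  refine Finset.sum_congr rfl fun b _ => Finset.sum_congr rfl fun i _ => ?_
  rw [smul_assoc]

end mono

theorem polt : S_POLT := by
  classical
  intro K L _ _ _ D θ hθ hD
  have h0 : ∀ i, θ i ≠ 0 := fun i => hθ.ne_zero i
  have hset : ∀ (m : ℤ) (P : (Fin D → ℤ) → Prop),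
      {a : L | ∃ b : Fin D → ℤ, degz b = m ∧ P b ∧ a = monz θ b} =
      monz θ '' {b | degz b = m ∧ P b} := by
    intro m P
    ext a
    constructor
    · rintro ⟨b, h1, h2, rfl⟩
      exact ⟨b, ⟨h1, h2⟩, rfl⟩
    · rintro ⟨b, ⟨h1, h2⟩, rfl⟩
      exact ⟨b, h1, h2, rfl⟩
  have hne : (Finset.univ : Finset (Fin D)).Nonempty := ⟨⟨0, by omega⟩, Finset.mem_univ _⟩
  have hne' : ∀ k : Fin D, ((Finset.univ : Finset (Fin D)).erase k).Nonempty := by
    intro k
    rw [← Finset.card_pos, Finset.card_erase_of_mem (Finset.mem_univ k), Finset.card_univ,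
      Fintype.card_fin]
    omega
  refine ⟨indep hθ, ?_, ?_⟩
  · intro m v
    rw [sec_iff h0 m hne]
    have h1 : monz θ '' Gs D m Finset.univ = {a : L | ∃ b : Fin D → ℤ, degz b = m ∧ a = monz θ b} := by
      ext a
      constructor
      · rintro ⟨b, ⟨h1, _⟩, rfl⟩
        exact ⟨b, h1, rfl⟩
      · rintro ⟨b, h1, rfl⟩
        exact ⟨b, ⟨h1, fun i hi => absurd (Finset.mem_univ i) hi⟩, rfl⟩
    rw [h1]
  · intro m v
    rw [hset m fun b => ∃ k, 0 ≤ b k]
    constructor
    · rintro ⟨r, hr, rfl⟩
      refine Submodule.sum_mem _ fun k _ => ?_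
      have h1 := (sec_iff h0 m (hne' k) _).1 (hr k)
      refine Submodule.span_mono (Set.image_mono ?_) h1
      rintro b ⟨h2, h3⟩
      exact ⟨h2, k, h3 k (by simp)⟩
    · intro h
      have hsec : ∀ (k : Fin D) (a : L), a ∈ Sec (VV K θ) θ m (Finset.univ.erase k) ↔
          a ∈ Submodule.span K (monz θ '' Gs D m (Finset.univ.erase k)) := fun k a =>
        sec_iff h0 m (hne' k) a
      induction h using Submodule.span_induction with
      | mem x hx =>
        obtain ⟨b, ⟨h1, k, h2⟩, rfl⟩ := hx
        refine ⟨Pi.single k (monz θ b), fun k' => ?_, ?_⟩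
        · by_cases hk : k' = k
          · subst hk
            rw [Pi.single_eq_same, hsec]
            refine Submodule.subset_span ⟨b, ⟨h1, fun i hi => ?_⟩, rfl⟩
            have : i = k' := by simpa using hi
            rw [this]
            exact h2
          · rw [Pi.single_eq_of_ne hk, hsec]
            exact zero_mem _
        · rw [Finset.sum_pi_single']
          simp
      | zero =>
        refine ⟨0, fun k => ?_, by simp⟩
        rw [Pi.zero_apply, hsec]
        exact zero_mem _
      | add x y _ _ hx hy =>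
        obtain ⟨r, hr, rfl⟩ := hx
        obtain ⟨r', hr', rfl⟩ := hy
        refine ⟨r + r', fun k => ?_, ?_⟩
        · rw [Pi.add_apply, hsec]
          exact add_mem ((hsec k _).1 (hr k)) ((hsec k _).1 (hr' k))
        · simp [Finset.sum_add_distrib]
      | smul c x _ hx =>
        obtain ⟨r, hr, rfl⟩ := hx
        refine ⟨c • r, fun k => ?_, ?_⟩
        · rw [Pi.smul_apply, hsec]
          exact Submodule.smul_mem _ _ ((hsec k _).1 (hr k))
        · simp [Finset.smul_sum]

theorem pol : S_POL := by
  classical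
  intro K L _ _ _ D θ hθ m j hj hjD c hc
  obtain ⟨hc1, hc2⟩ := hc
  have h0 : ∀ i, θ i ≠ 0 := fun i => hθ.ne_zero i
  -- coefficients
  have hex : ∀ S : Finset (Fin D), ∃ l : (Fin D → ℤ) →₀ K, S.card = j →
      (l ∈ Finsupp.supported K K (Gs D m S) ∧ Finsupp.linearCombination K (monz θ) l = c S) := by
    intro S
    by_cases hS : S.card = j
    · have hSne : S.Nonempty := by
        rw [← Finset.card_pos]
        omega
      have h1 := (sec_iff h0 m hSne _).1 (hc1 S hS)
      obtain ⟨l, hl, hl2⟩ := (Finsupp.mem_span_image_iff_linearCombination K).1 h1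
      exact ⟨l, fun _ => ⟨hl, hl2⟩⟩
    · exact ⟨0, fun h => absurd h hS⟩
  choose κ hκ using hex
  obtain ⟨B, hB⟩ : ∃ B : Finset (Fin D → ℤ), ∀ S, (κ S).support ⊆ B :=
    ⟨Finset.univ.biUnion fun S : Finset (Fin D) => (κ S).support, fun S =>
      Finset.subset_biUnion_of_mem (fun S : Finset (Fin D) => (κ S).support) (Finset.mem_univ S)⟩
  have hcS : ∀ S : Finset (Fin D), S.card = j → c S = ∑ b ∈ B, κ S b • monz θ b := by
    intro S hS
    rw [← (hκ S hS).2, Finsupp.linearCombination_apply, Finsupp.sum]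
    refine Finset.sum_subset (hB S) ?_
    intro b _ hb
    rw [Finsupp.notMem_support_iff.1 hb, zero_smul]
  have hsupp : ∀ (S : Finset (Fin D)) (b : Fin D → ℤ), S.card = j → κ S b ≠ 0 →
      degz b = m ∧ ∀ i, i ∉ S → 0 ≤ b i := by
    intro S b hS hb
    exact (Finsupp.mem_supported K (κ S)).1 (hκ S hS).1 (Finsupp.mem_support_iff.2 hb)
  -- the coefficients are closed
  have hclosed : ∀ T : Finset (Fin D), T.card = j + 1 → ∀ b ∈ B,
      dd (fun S => κ S b) T = 0 := by
    intro T hT b hb
    have h1 := hc2 T hT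
    have h2 : dd c T = dd (fun S => ∑ b ∈ B, κ S b • monz θ b) T := by
      rw [dd_eq, dd_eq]
      refine Finset.sum_congr rfl fun i hi => ?_
      rw [hcS]
      rw [Finset.card_erase_of_mem hi, hT, Nat.add_sub_cancel]
    rw [h2, dd_sum B (fun b S => κ S b) (monz θ) T] at h1
    have hI : LinearIndependent K (fun b : Fin D → ℤ => monz θ b) := indep hθ
    rw [linearIndependent_iff'] at hI
    exact hI B (fun b => dd (fun S => κ S b) T) h1 b hb
  -- the index used for contraction
  have hsel : ∀ b : Fin D → ℤ, ∃ i₀ : Fin D, (∃ i, 0 ≤ b i) → 0 ≤ b i₀ := by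
    intro b
    by_cases h : ∃ i, 0 ≤ b i
    · obtain ⟨i, hi⟩ := h
      exact ⟨i, fun _ => hi⟩
    · exact ⟨⟨0, by omega⟩, fun h' => absurd h' h⟩
  choose sel hsel using hsel
  let B' := B.filter fun b => ∃ i, 0 ≤ b i
  refine ⟨fun S => ∑ b ∈ B', contr (sel b) (fun S => κ S b) S • monz θ b, ?_, ?_⟩
  · intro S hS
    have hSne : S.Nonempty := by
      rw [← Finset.card_pos]
      omega
    rw [sec_iff h0 m hSne]
    refine Submodule.sum_mem _ fun b hb => ?_
    by_cases hz : contr (sel b) (fun S => κ S b) S = 0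
    · rw [hz, zero_smul]
      exact zero_mem _
    · refine Submodule.smul_mem _ _ (Submodule.subset_span ⟨b, ?_, rfl⟩)
      have hb' := hsel b (Finset.mem_filter.1 hb).2
      have hnot : sel b ∉ S := fun h => hz (if_pos h)
      have hval : contr (sel b) (fun S => κ S b) S =
          sgn S (sel b) • κ (insert (sel b) S) b := if_neg hnot
      have hne : κ (insert (sel b) S) b ≠ 0 := by
        intro h
        rw [hval, h, smul_zero] at hz
        exact hz rfl
      have hcard : (insert (sel b) S).card = j := by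
        rw [Finset.card_insert_of_notMem hnot, hS]
        omega
      obtain ⟨h1, h2⟩ := hsupp _ b hcard hne
      refine ⟨h1, fun i hi => ?_⟩
      by_cases hi' : i = sel b
      · rw [hi']
        exact hb'
      · exact h2 i (by simp [hi, hi'])
  · intro S hS
    rw [dd_sum B' (fun b => contr (sel b) (fun S => κ S b)) (monz θ) S, hcS S hS]
    have h1 : ∑ b ∈ B, κ S b • monz θ b = ∑ b ∈ B', κ S b • monz θ b := by
      symm
      refine Finset.sum_subset (Finset.filter_subset _ _) ?_
      intro b hb hb'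
      have h2 : ¬ ∃ i, 0 ≤ b i := fun h => hb' (Finset.mem_filter.2 ⟨hb, h⟩)
      have h3 : κ S b = 0 := by
        by_contra hne
        obtain ⟨i, hi⟩ : ∃ i : Fin D, i ∉ S := by
          by_contra hcon
          push Not at hcon
          have : S = Finset.univ := Finset.eq_univ_iff_forall.2 hcon
          rw [this, Finset.card_univ, Fintype.card_fin] at hS
          omega
        exact h2 ⟨i, (hsupp S b hS hne).2 i hi⟩
      rw [h3, zero_smul]
    rw [h1]
    refine Finset.sum_congr rfl fun b hb => ?_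
    congr 1
    have h4 := homotopy (sel b) (fun S => κ S b) S
    have h5 : contr (sel b) (dd fun S => κ S b) S = 0 := by
      unfold contr
      split_ifs with h
      · rfl
      · rw [hclosed _ (by rw [Finset.card_insert_of_notMem h, hS]) b (Finset.mem_filter.1 hb).1,
          smul_zero]
    rw [h5, add_zero] at h4
    exact h4.symm

end Pool.Agent.Y394.GS
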